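import Mathlib
import Pool.Agent.Q201.MatShift

/-!
# The shift generated by a constant Jordan block is not a product of weighted shifts
-/

set_option autoImplicit false

open scoped ENNReal

namespace Pool.Agent.Results.MP_43e0cc_an.JordanShift

/-- the Banach space `ℓ_p(E)` of bilateral sequences -/
abbrev Ell (E : Type) [NormedAddCommGroup E] (p : ℝ≥0∞) : Type := lp (fun _ : ℤ => E) p

/-- the `n`-th entry of a sequence -/
def entry {E : Type} [NormedAddCommGroup E] {p : ℝ≥0∞} (x : Ell E p) (n : ℤ) : E := x n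

/-- `𝕂²` with the Euclidean norm -/
abbrev E2 (𝕂 : Type) [RCLike 𝕂] : Type := EuclideanSpace 𝕂 (Fin 2)

/-- bounded operators on a normed space -/
abbrev Op (𝕂 F : Type) [RCLike 𝕂] [NormedAddCommGroup F] [NormedSpace 𝕂 F] : Type := F →L[𝕂] F

/-- the value of an operator -/
def app {𝕂 F : Type} [RCLike 𝕂] [NormedAddCommGroup F] [NormedSpace 𝕂 F] (T : Op 𝕂 F) (x : F) : F := T x

/-- `T` is the shift operator generated by the constant sequence `S_n = A` -/
def IsShiftGeneratedBy {𝕂 : Type} [RCLike 𝕂] {p : ℝ≥0∞} [Fact (1 ≤ p)] (A : E2 𝕂 ≃L[𝕂] E2 𝕂)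
    (T : Op 𝕂 (Ell (E2 𝕂) p)) : Prop :=
  ∀ x n, entry (app T x) n = A (entry x (n + 1))

/-- `P` is the product of the weighted backward shifts with weights `ω j` (bounded and bounded away
from `0`) -/
def IsProductOfShifts {𝕂 : Type} [RCLike 𝕂] {p : ℝ≥0∞} [Fact (1 ≤ p)] {k : ℕ} (ω : Fin k → ℤ → 𝕂)
    (P : Op 𝕂 (Fin k → Ell 𝕂 p)) : Prop :=
  (∀ j, ∃ c C : ℝ, 0 < c ∧ ∀ n, c ≤ ‖ω j n‖ ∧ ‖ω j n‖ ≤ C) ∧
    ∀ y j n, entry (app P y j) n = ω j (n + 1) * entry (y j) (n + 1)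

/-- `T` and `P` are linearly conjugate -/
def Conjugate {𝕂 F G : Type} [RCLike 𝕂] [NormedAddCommGroup F] [NormedSpace 𝕂 F]
    [NormedAddCommGroup G] [NormedSpace 𝕂 G] (T : Op 𝕂 F) (P : Op 𝕂 G) : Prop :=
  ∃ H : F ≃L[𝕂] G, ∀ x, H (T x) = P (H x)

/-- For `𝕂 = ℝ` and `𝕂 = ℂ` and every `1 ≤ p < ∞` there is an invertible linear map `A` of `𝕂²` such
that the shift operator generated by the constant sequence `S_n = A` on `ℓ_p(𝕂²)` is not linearly
conjugate to any finite product of weighted backward shifts on `ℓ_p(𝕂)`. -/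
theorem result (𝕂 : Type) [RCLike 𝕂] (p : ℝ≥0∞) [Fact (1 ≤ p)] (hp : p ≠ ⊤) :
    ∃ (A : E2 𝕂 ≃L[𝕂] E2 𝕂) (T : Op 𝕂 (Ell (E2 𝕂) p)), IsShiftGeneratedBy A T ∧
      ∀ (k : ℕ) (ω : Fin k → ℤ → 𝕂) (P : Op 𝕂 (Fin k → Ell 𝕂 p)),
        IsProductOfShifts ω P → ¬ Conjugate T P := by
  let A : E2 𝕂 ≃L[𝕂] E2 𝕂 := LinearEquiv.toContinuousLinearEquiv
    { toFun := fun v => !₂[v 0 + v 1, v 1]
      invFun := fun v => !₂[v 0 - v 1, v 1]
      map_add' := fun v w => by
        ext i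
        fin_cases i
        · simp; ring
        · simp
      map_smul' := fun c v => by
        ext i
        fin_cases i
        · simp; ring
        · simp
      left_inv := fun v => by
        ext i
        fin_cases i
        · simp
        · simp
      right_inv := fun v => by
        ext i
        fin_cases i
        · simp
        · simp }
  have hA : ∀ v, A v = Pool.Agent.Q201.MatShift.J 𝕂 v := fun v => rfl
  obtain ⟨T, hT⟩ := Pool.Agent.Q201.MatShift.exists_op hp (A : E2 𝕂 →L[𝕂] E2 𝕂)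
  refine ⟨A, T, hT, ?_⟩
  rintro k ω P ⟨hω, hP⟩ ⟨H, hH⟩
  refine Pool.Agent.Q201.MatShift.no_conj hp T (fun x n => ?_) ω (fun j n => ?_) P hP H hH
  · rw [hT x n]; exact hA _
  · obtain ⟨c, C, hc, hcC⟩ := hω j
    exact norm_pos_iff.1 (hc.trans_le (hcC n).1)

end Pool.Agent.Results.MP_43e0cc_an.JordanShift
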